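import Mathlib

/-!
# Deleting an edge raises the energy of a graph by less than two

The energy of a graph is the sum of the absolute values of the eigenvalues of its adjacency matrix.
For every graph `G` and every edge `e` of `G` the energy of `G \ e` is less than the energy of `G`
plus two. So there is no graph with an edge the deletion of which raises the energy by exactly `2`.

Proof. Let `A' = ∑ λ_i b_i b_i^T` be the spectral decomposition of the adjacency matrix of `G \ e`,
`e = u v`, and let `s_i` be the sign of `λ_i`. Then `∑ |λ_i| = ∑ s_i ⟨b_i, A b_i⟩ - 2 ∑ s_i b_i(u) b_i(v)`.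
The first sum is at most the energy of `G` and the second term is at most `∑ (b_i(u)^2 + b_i(v)^2) = 2`.
If it is `2` then `b_i(u) = - s_i b_i(v)` for all `i`, and `0 = A'(u, v) = - ∑ |λ_i| b_i(u)^2`, so all
`b_i(u)` are zero, a contradiction.
-/

set_option autoImplicit false
set_option linter.unusedSectionVars false

open Matrix Finset

namespace Pool.Agent.Results.MP_51d21a_co.NoIncreaseByTwo

variable {V : Type} [Fintype V] [DecidableEq V]

theorem spec {A : Matrix V V ℝ} (hA : A.IsHermitian) : ∃ U : Matrix V V ℝ,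
    Uᵀ * U = 1 ∧ U * Uᵀ = 1 ∧ A = U * diagonal hA.eigenvalues * Uᵀ := by
  have h := Unitary.mem_iff.1 (hA.eigenvectorUnitary).2
  refine ⟨(hA.eigenvectorUnitary : Matrix V V ℝ), ?_, ?_, ?_⟩
  · have := h.1
    rwa [Matrix.star_eq_conjTranspose, Matrix.conjTranspose_eq_transpose_of_trivial] at this
  · have := h.2
    rwa [Matrix.star_eq_conjTranspose, Matrix.conjTranspose_eq_transpose_of_trivial] at this
  · have := hA.spectral_theorem
    rw [Unitary.conjStarAlgAut_apply, Matrix.star_eq_conjTranspose,
      Matrix.conjTranspose_eq_transpose_of_trivial] at this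
    exact this

theorem quad (U M : Matrix V V ℝ) (i : V) :
    (Uᵀ * M * U) i i = ∑ x, ∑ y, U x i * M x y * U y i := by
  rw [Matrix.mul_apply, Finset.sum_comm]
  refine Finset.sum_congr rfl fun y _ => ?_
  rw [Matrix.mul_apply, Finset.sum_mul]
  rfl

theorem row_sq {U : Matrix V V ℝ} (h : U * Uᵀ = 1) (x : V) : ∑ i, U x i ^ 2 = 1 := by
  have := congrFun (congrFun h x) x
  rw [Matrix.mul_apply, Matrix.one_apply_eq] at this
  rw [← this]
  exact Finset.sum_congr rfl fun i _ => by rw [Matrix.transpose_apply]; ring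

theorem diag_eq {A : Matrix V V ℝ} (hA : A.IsHermitian) {U : Matrix V V ℝ} (h1 : Uᵀ * U = 1)
    (h3 : A = U * diagonal hA.eigenvalues * Uᵀ) (i : V) : (Uᵀ * A * U) i i = hA.eigenvalues i := by
  have : Uᵀ * A * U = diagonal hA.eigenvalues := by
    calc Uᵀ * A * U = Uᵀ * (U * diagonal hA.eigenvalues * Uᵀ) * U := by rw [← h3]
      _ = (Uᵀ * U) * diagonal hA.eigenvalues * (Uᵀ * U) := by simp only [Matrix.mul_assoc]
      _ = _ := by rw [h1, Matrix.one_mul, Matrix.mul_one]
  rw [this, Matrix.diagonal_apply_eq]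

/-- the trace norm dominates -/
theorem trace_le {A : Matrix V V ℝ} (hA : A.IsHermitian) {U : Matrix V V ℝ}
    (h2 : U * Uᵀ = 1) (s : V → ℝ) (hs : ∀ i, |s i| ≤ 1) :
    ∑ i, s i * (Uᵀ * A * U) i i ≤ ∑ j, |hA.eigenvalues j| := by
  obtain ⟨W, hW1, hW2, hW3⟩ := spec hA
  set Q := Wᵀ * U with hQ
  have hQ1 : Q * Qᵀ = 1 := by
    rw [hQ, Matrix.transpose_mul, Matrix.transpose_transpose]
    calc Wᵀ * U * (Uᵀ * W) = Wᵀ * (U * Uᵀ) * W := by simp only [Matrix.mul_assoc]
      _ = 1 := by rw [h2, Matrix.mul_one, hW1]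
  have e1 : ∀ i, (Uᵀ * A * U) i i = ∑ j, hA.eigenvalues j * Q j i ^ 2 := by
    intro i
    have : Uᵀ * A * U = Qᵀ * diagonal hA.eigenvalues * Q := by
      rw [hQ, Matrix.transpose_mul, Matrix.transpose_transpose]
      conv_lhs => rw [hW3]
      simp only [Matrix.mul_assoc]
    rw [this, Matrix.mul_apply]
    refine Finset.sum_congr rfl fun j _ => ?_
    rw [Matrix.mul_diagonal, Matrix.transpose_apply]
    ring
  calc ∑ i, s i * (Uᵀ * A * U) i i = ∑ i, ∑ j, s i * (hA.eigenvalues j * Q j i ^ 2) := by
        refine Finset.sum_congr rfl fun i _ => ?_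
        rw [e1, Finset.mul_sum]
    _ ≤ ∑ i, ∑ j, |hA.eigenvalues j| * Q j i ^ 2 := by
        refine Finset.sum_le_sum fun i _ => Finset.sum_le_sum fun j _ => ?_
        rw [← mul_assoc]
        refine mul_le_mul_of_nonneg_right ?_ (sq_nonneg _)
        calc s i * hA.eigenvalues j ≤ |s i * hA.eigenvalues j| := le_abs_self _
          _ = |s i| * |hA.eigenvalues j| := abs_mul _ _
          _ ≤ 1 * |hA.eigenvalues j| := mul_le_mul_of_nonneg_right (hs i) (abs_nonneg _)
          _ = _ := one_mul _
    _ = ∑ j, |hA.eigenvalues j| := by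
        rw [Finset.sum_comm]
        refine Finset.sum_congr rfl fun j _ => ?_
        rw [← Finset.mul_sum, row_sq hQ1, mul_one]

/-- The theorem for real symmetric matrices. -/
theorem matrix_lt {A B : Matrix V V ℝ} (hA : A.IsHermitian) (hB : B.IsHermitian) {u v : V}
    (huv : u ≠ v) (hBuv : B u v = 0)
    (hAB : ∀ x y, A x y = B x y + if (x = u ∧ y = v) ∨ (x = v ∧ y = u) then 1 else 0) :
    ∑ i, |hB.eigenvalues i| < ∑ i, |hA.eigenvalues i| + 2 := by
  obtain ⟨U, h1, h2, h3⟩ := spec hB
  set l := hB.eigenvalues with hl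
  have hs0 : ∀ x : ℝ, ∃ c : ℝ, c * x = |x| ∧ |c| ≤ 1 ∧ (x = 0 → c = 0) := by
    intro x
    rcases lt_trichotomy x 0 with h | h | h
    · exact ⟨-1, by rw [abs_of_neg h]; ring, by simp, fun h' => absurd h' h.ne⟩
    · exact ⟨0, by rw [h]; simp, by simp, fun _ => rfl⟩
    · exact ⟨1, by rw [abs_of_pos h]; ring, by simp, fun h' => absurd h' h.ne'⟩
  choose c hc using hs0
  obtain ⟨s, hs⟩ : ∃ s : V → ℝ, ∀ i, s i * l i = |l i| ∧ |s i| ≤ 1 ∧ (l i = 0 → s i = 0) :=
    ⟨fun i => c (l i), fun i => hc (l i)⟩
  have e1 : ∀ i, (Uᵀ * A * U) i i = l i + 2 * (U u i * U v i) := by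
    intro i
    have e0 : l i = (Uᵀ * B * U) i i := (diag_eq hB h1 h3 i).symm
    rw [e0, quad, quad]
    have : ∀ x y, U x i * A x y * U y i = U x i * B x y * U y i +
        ((if x = u then (if y = v then U u i * U v i else 0) else 0) +
        (if x = v then (if y = u then U u i * U v i else 0) else 0)) := by
      intro x y
      rw [hAB]
      by_cases hx : x = u
      · subst hx
        by_cases hy : y = v
        · subst hy
          simp [huv]
          ring
        · simp [hy, huv]
      · by_cases hx' : x = v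
        · subst hx'
          by_cases hy : y = u
          · subst hy
            simp [hx]
            ring
          · simp [hx, hy]
        · simp [hx, hx']
    simp only [this, Finset.sum_add_distrib]
    simp
    ring
  have e2 : ∑ i, |l i| = ∑ i, s i * (Uᵀ * A * U) i i - ∑ i, 2 * (s i * (U u i * U v i)) := by
    rw [← Finset.sum_sub_distrib]
    refine Finset.sum_congr rfl fun i _ => ?_
    rw [e1, ← (hs i).1]
    ring
  have e3 := trace_le hA h2 s fun i => (hs i).2.1
  have e4 : ∀ i, -(2 * (s i * (U u i * U v i))) ≤ U u i ^ 2 + U v i ^ 2 := by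
    intro i
    have h4 := (hs i).2.1
    have h5 : -(s i * (U u i * U v i)) ≤ |U u i| * |U v i| := by
      calc -(s i * (U u i * U v i)) ≤ |s i * (U u i * U v i)| := neg_le_abs _
        _ = |s i| * (|U u i| * |U v i|) := by rw [abs_mul, abs_mul]
        _ ≤ 1 * (|U u i| * |U v i|) := mul_le_mul_of_nonneg_right h4 (by positivity)
        _ = _ := one_mul _
    have h6 : 2 * (|U u i| * |U v i|) ≤ U u i ^ 2 + U v i ^ 2 := by
      have := sq_nonneg (|U u i| - |U v i|)
      rw [← sq_abs (U u i), ← sq_abs (U v i)]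
      nlinarith
    linarith
  have e5 : ∑ i, (U u i ^ 2 + U v i ^ 2) = 2 := by
    rw [Finset.sum_add_distrib, row_sq h2, row_sq h2]
    norm_num
  have e6 : ∑ i, -(2 * (s i * (U u i * U v i))) < 2 := by
    refine lt_of_lt_of_eq ?_ e5
    refine lt_of_le_of_ne (Finset.sum_le_sum fun i _ => e4 i) fun heq => ?_
    have e7 := (Finset.sum_eq_sum_iff_of_le fun i _ => e4 i).1 heq
    -- the equality case
    have e8 : ∀ i, U u i = - (s i * U v i) := by
      intro i
      have h7 := e7 i (Finset.mem_univ i)
      have h8 : s i ^ 2 ≤ 1 := by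
        have := (hs i).2.1
        rw [← sq_abs]
        nlinarith [abs_nonneg (s i)]
      have h9 : (U u i + s i * U v i) ^ 2 ≤ 0 := by
        have : (U u i + s i * U v i) ^ 2 = U u i ^ 2 + 2 * (s i * (U u i * U v i)) +
          s i ^ 2 * U v i ^ 2 := by ring
        rw [this]
        nlinarith [sq_nonneg (U v i)]
      have h10 : U u i + s i * U v i = 0 := by
        have := le_antisymm h9 (sq_nonneg _)
        exact pow_eq_zero_iff (two_ne_zero) |>.1 this
      linarith
    have e9 : B u v = ∑ i, l i * (U u i * U v i) := by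
      conv_lhs => rw [h3]
      rw [Matrix.mul_apply]
      refine Finset.sum_congr rfl fun i _ => ?_
      rw [Matrix.mul_diagonal, Matrix.transpose_apply]
      ring
    have e10 : ∀ i, l i * (U u i * U v i) = -(|l i| * U v i ^ 2) := by
      intro i
      rw [e8 i, ← (hs i).1]
      ring
    have e11 : ∑ i, |l i| * U v i ^ 2 = 0 := by
      have : ∑ i, |l i| * U v i ^ 2 = - B u v := by
        rw [e9, ← Finset.sum_neg_distrib]
        exact Finset.sum_congr rfl fun i _ => by rw [e10, neg_neg]
      rw [this, hBuv, neg_zero]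
    have e12 := (Finset.sum_eq_zero_iff_of_nonneg fun i _ => by positivity).1 e11
    have e13 : ∀ i, U u i = 0 := by
      intro i
      have h7 := e12 i (Finset.mem_univ i)
      rcases mul_eq_zero.1 h7 with h8 | h8
      · rw [e8 i, (hs i).2.2 (abs_eq_zero.1 h8), zero_mul, neg_zero]
      · have h9 : U v i = 0 := pow_eq_zero_iff (two_ne_zero) |>.1 h8
        rw [e8 i, h9, mul_zero, neg_zero]
    have e14 := row_sq h2 u
    simp [e13] at e14
  have e7 : - ∑ i, 2 * (s i * (U u i * U v i)) < 2 := by
    rw [← Finset.sum_neg_distrib]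
    exact e6
  rw [e2]
  linarith

/-- The adjacency matrix over the real numbers is symmetric. -/
theorem herm (G : SimpleGraph V) [DecidableRel G.Adj] : (G.adjMatrix ℝ).IsHermitian := by
  rw [Matrix.IsHermitian, Matrix.conjTranspose_eq_transpose_of_trivial,
    SimpleGraph.transpose_adjMatrix]

/-- The energy: the sum of the absolute values of the eigenvalues of the adjacency matrix. -/
noncomputable def energy (G : SimpleGraph V) [DecidableRel G.Adj] : ℝ :=
  ∑ i, |(herm G).eigenvalues i|

/-- For every finite graph `G` and every edge `u v` of `G` the energy of `G` without the edge is less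
than the energy of `G` plus two. -/
theorem result (V : Type) [Fintype V] [DecidableEq V] (G : SimpleGraph V) [DecidableRel G.Adj]
    (u v : V) (h : G.Adj u v) [DecidableRel (G.deleteEdges {s(u, v)}).Adj] :
    energy (G.deleteEdges {s(u, v)}) < energy G + 2 := by
  refine matrix_lt (herm G) (herm _) h.ne ?_ fun x y => ?_
  · simp [SimpleGraph.adjMatrix_apply]
  · simp only [SimpleGraph.adjMatrix_apply, SimpleGraph.deleteEdges_adj, Set.mem_singleton_iff,
      Sym2.eq_iff]
    by_cases h1 : (x = u ∧ y = v) ∨ (x = v ∧ y = u)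
    · have h2 : G.Adj x y := by
        rcases h1 with ⟨rfl, rfl⟩ | ⟨rfl, rfl⟩
        · exact h
        · exact h.symm
      simp [h1, h2]
    · simp [h1]

end Pool.Agent.Results.MP_51d21a_co.NoIncreaseByTwo
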